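import Pool.Agent.H91.ET.EXU1

/-!
Module EXU of the board et_modules (MP_3cf473_nt), helper91: transfer from the ultraproduct.
-/

open Finset Filter

namespace Pool.Agent.H91.ET

open Pool.Agent.H72.BF (RelN)
open Pool.Agent.H72.ET
open Pool.Agent.H67.BF.GCR

namespace EXU

section

variable {K F : ℕ → Type} [∀ j, Field (K j)] [∀ j, Field (F j)] [∀ j, Algebra (K j) (F j)]

omit [∀ j, Field (F j)] [∀ j, Algebra (K j) (F j)] in
lemma mk_eq_iff (a b : ∀ j, K j) : mk K a = mk K b ↔
    ∀ᶠ j in (hyperfilter ℕ : Filter ℕ), a j = b j := by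
  rw [← sub_eq_zero, ← map_sub, mk_zero_iff]
  simp only [Pi.sub_apply, sub_eq_zero]

omit [∀ j, Field (F j)] [∀ j, Algebra (K j) (F j)] in
/-- values of integer polynomials -/
lemma mk_aeval {L : ℕ} (g : ∀ j, Fin L → K j) (f : MvPolynomial (Fin L) ℤ) :
    mk K (fun j => MvPolynomial.aeval (g j) f) =
      MvPolynomial.aeval (fun i => mk K (fun j => g j i)) f := by
  induction f using MvPolynomial.induction_on with
  | C a =>
    rw [MvPolynomial.aeval_C]
    have h1 : (fun j => MvPolynomial.aeval (g j) (MvPolynomial.C a)) =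
        ((algebraMap ℤ (∀ j, K j)) a) := by
      funext j
      rw [MvPolynomial.aeval_C]
      rfl
    rw [h1]
    simp
  | add p q hp hq =>
    rw [map_add, ← hp, ← hq, ← map_add]
    congr 1
    funext j
    rw [map_add]
    rfl
  | mul_X p i hp =>
    rw [map_mul, ← hp, MvPolynomial.aeval_X, ← map_mul]
    congr 1
    funext j
    rw [map_mul, MvPolynomial.aeval_X]
    rfl

/-- independence is preserved in the limit -/
lemma li_star {n : ℕ} (x : ∀ j, Fin n → F j) (h : ∀ j, LinearIndependent (K j) (x j)) :
    LinearIndependent (UR K) (fun i => mk F (fun j => x j i)) := by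
  rw [Fintype.linearIndependent_iff]
  intro a ha
  choose b hb using fun i => mk_surj K (a i)
  have h1 : mk F (∑ i, pm K F (b i) * (fun j => x j i)) = 0 := by
    rw [← ha, map_sum]
    refine Finset.sum_congr rfl fun i _ => ?_
    rw [map_mul, ← um_mk, hb, Algebra.smul_def, algebraMap_UR]
  rw [mk_zero_iff] at h1
  have h2 : ∀ᶠ j in (hyperfilter ℕ : Filter ℕ), ∀ i, b i j = 0 := by
    filter_upwards [h1] with j hj
    have hlj := h j
    rw [Fintype.linearIndependent_iff] at hlj
    refine hlj (fun i => b i j) ?_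
    rw [Finset.sum_apply] at hj
    rw [← hj]
    refine Finset.sum_congr rfl fun i _ => ?_
    rw [Algebra.smul_def]
    rfl
  intro i
  rw [← hb i, mk_zero_iff]
  filter_upwards [h2] with j hj using hj i

omit [∀ j, Field (F j)] [∀ j, Algebra (K j) (F j)] in
/-- independence of vectors is preserved in the limit -/
lemma li_vec {ι : Type} [Fintype ι] {M : ℕ} (v : ∀ j, ι → Fin M → K j)
    (h : ∀ᶠ j in (hyperfilter ℕ : Filter ℕ), LinearIndependent (K j) (v j)) :
    LinearIndependent (UR K) (fun l k => mk K (fun j => v j l k)) := by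
  rw [Fintype.linearIndependent_iff]
  intro a ha
  choose b hb using fun i => mk_surj K (a i)
  have h1 : ∀ k, ∀ᶠ j in (hyperfilter ℕ : Filter ℕ), ∑ l, b l j * v j l k = 0 := by
    intro k
    have h2 := congrFun ha k
    have h3 : mk K (∑ l, b l * (fun j => v j l k)) = 0 := by
      rw [map_sum, ← show (0 : Fin M → UR K) k = 0 from rfl, ← h2, Finset.sum_apply]
      refine Finset.sum_congr rfl fun l _ => ?_
      rw [map_mul, hb]
      rfl
    rw [mk_zero_iff] at h3
    filter_upwards [h3] with j hj
    rw [← hj, Finset.sum_apply]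
    rfl
  have h2 := (Filter.eventually_all (l := (hyperfilter ℕ : Filter ℕ))).2 h1
  have h3 : ∀ᶠ j in (hyperfilter ℕ : Filter ℕ), ∀ i, b i j = 0 := by
    filter_upwards [h2, h] with j hj hlj
    rw [Fintype.linearIndependent_iff] at hlj
    refine hlj (fun i => b i j) ?_
    funext k
    rw [Finset.sum_apply]
    exact hj k
  intro i
  rw [← hb i, mk_zero_iff]
  filter_upwards [h3] with j hj using hj i

/-- independent subfamilies -/
lemma sub_li {k : Type} [Field k] {N M q : ℕ} (v : Fin N → Fin M → k) (A : Set (Fin N))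
    (h : q < Module.finrank k (Submodule.span k (v '' A))) : ∃ S : Finset (Fin N),
      S.card = q + 1 ∧ (S : Set (Fin N)) ⊆ A ∧ LinearIndependent k (fun l : S => v l) := by
  classical
  obtain ⟨κ, a, ha, hsp, hli⟩ := exists_linearIndependent' k (fun l : A => v l)
  have hr : Set.range (fun l : A => v l) = v '' A := by
    ext x
    constructor
    · rintro ⟨l, rfl⟩
      exact ⟨l, l.2, rfl⟩
    · rintro ⟨l, hl, rfl⟩
      exact ⟨⟨l, hl⟩, rfl⟩
  have hκ : Finite κ := Finite.of_injective a ha
  have hF : Fintype κ := Fintype.ofFinite κ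
  have h1 : Fintype.card κ = Module.finrank k (Submodule.span k (v '' A)) := by
    rw [← hr, ← hsp]
    exact (finrank_span_eq_card hli).symm
  obtain ⟨T, -, hT⟩ := Finset.exists_subset_card_eq (s := (Finset.univ : Finset κ))
    (n := q + 1) (by rw [Finset.card_univ, h1]; exact h)
  have hinj : Function.Injective (fun x : κ => ((a x : A) : Fin N)) :=
    Subtype.val_injective.comp ha
  refine ⟨T.image (fun x : κ => ((a x : A) : Fin N)), ?_, ?_, ?_⟩
  · rw [Finset.card_image_of_injective _ hinj, hT]
  · intro l hl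
    obtain ⟨x, -, rfl⟩ := Finset.mem_image.1 (Finset.mem_coe.1 hl)
    exact (a x).2
  · have h2 : ∀ l : (T.image (fun x : κ => ((a x : A) : Fin N)) : Finset (Fin N)),
        ∃ x : κ, ((a x : A) : Fin N) = l := fun l => by
      obtain ⟨x, -, hx⟩ := Finset.mem_image.1 l.2
      exact ⟨x, hx⟩
    choose e he using h2
    have he' : Function.Injective e := fun l l' hll => by
      apply Subtype.ext
      rw [← he l, ← he l', hll]
    have h3 := hli.comp e he'
    have h4 : (fun l : (T.image (fun x : κ => ((a x : A) : Fin N)) : Finset (Fin N)) => v l) =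
        ((fun l : A => v l) ∘ a) ∘ e := by
      funext l
      simp only [Function.comp_apply]
      rw [he]
    rw [h4]
    exact h3

omit [∀ j, Field (F j)] [∀ j, Algebra (K j) (F j)] in
/-- dimensions of spans do not drop in the limit -/
lemma fin_star {N M q : ℕ} (v : ∀ j, Fin N → Fin M → K j) (A : Set (Fin N))
    (h : Module.finrank (UR K) (Submodule.span (UR K)
      ((fun l k => mk K (fun j => v j l k)) '' A)) ≤ q) :
    ∀ᶠ j in (hyperfilter ℕ : Filter ℕ),
      Module.finrank (K j) (Submodule.span (K j) (v j '' A)) ≤ q := by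
  classical
  by_contra hcon
  have h1 : ∀ᶠ j in (hyperfilter ℕ : Filter ℕ),
      ¬ Module.finrank (K j) (Submodule.span (K j) (v j '' A)) ≤ q :=
    Ultrafilter.eventually_not.2 hcon
  have h2 : ∀ᶠ j in (hyperfilter ℕ : Filter ℕ), ∃ S : Finset (Fin N), S.card = q + 1 ∧
      (S : Set (Fin N)) ⊆ A ∧ LinearIndependent (K j) (fun l : S => v j l) := by
    filter_upwards [h1] with j hj
    exact sub_li (v j) A (not_le.1 hj)
  obtain ⟨S, hS⟩ := Ultrafilter.eventually_exists_iff.1 h2
  obtain ⟨j, hj1, hj2, -⟩ := hS.exists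
  have h3 : LinearIndependent (UR K) (fun (l : S) k => mk K (fun j => v j l k)) :=
    li_vec (fun j (l : S) => v j l) (hS.mono fun j hj => hj.2.2)
  have h4 : Submodule.span (UR K) (Set.range (fun (l : S) k => mk K (fun j => v j l k))) ≤
      Submodule.span (UR K) ((fun l k => mk K (fun j => v j l k)) '' A) := by
    refine Submodule.span_mono ?_
    rintro _ ⟨l, rfl⟩
    exact ⟨l, hj2 l.2, rfl⟩
  have h5 := finrank_span_eq_card h3
  have h6 := Submodule.finrank_mono h4
  rw [h5, Fintype.card_coe, hj1] at h6
  omega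

end

end EXU

open EXU in
theorem exu (hEXN : T_EXN) (hUAC : T_UAC) : T_EXU := by
  classical
  intro r d M
  obtain ⟨s, hs⟩ := hEXN r d M
  refine ⟨s, fun N L => ?_⟩
  by_contra hcon
  push Not at hcon
  choose K F iK cK aK iF aKF t y g v P hli hv hP hP0 hPd hrel hQ hW using hcon
  have cU : CharZero (UR K) := charZero_UR K
  have aU : IsAlgClosed (UR K) := hUAC K
  choose Qt hQt hQj using fun l => lift_poly (fun j => P j l) (fun j => hPd j l)
  have hcoef : ∀ l m, (MvPolynomial.map (mk K) (Qt l)).coeff m =
      mk K (fun j => (P j l).coeff m) := by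
    intro l m
    rw [MvPolynomial.coeff_map]
    congr 1
    funext j
    rw [← hQj l j, MvPolynomial.coeff_map]
    rfl
  have hev : ∀ c : ℕ, ∀ᶠ j in (hyperfilter ℕ : Filter ℕ), c ≤ j := fun c =>
    Nat.hyperfilter_le_atTop (eventually_ge_atTop c)
  have hlim := lim_case (K := UR K) (F := UR F) (r := r) (d := d) (M := M) (s := s)
    (N := N) (L := L) hs
    (fun i => mk F (fun j => t j i)) (fun i => mk F (fun j => y j i))
    (fun i => mk K (fun j => g j i)) (fun l i => mk K (fun j => v j l i))
    (fun l => MvPolynomial.map (mk K) (Qt l)) ?_ ?_ ?_ ?_ ?_ ?_ ?_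
  · obtain ⟨c, hc⟩ := hlim
    have h1 : ∀ i, ∀ᶠ j in (hyperfilter ℕ : Filter ℕ),
        Module.finrank (K j) (Submodule.span (K j) (v j '' {l | c l = i})) ≤
          (r + d).choose d - 1 := by
      intro i
      apply fin_star
      have := hc i
      omega
    have h2 := (Filter.eventually_all (l := (hyperfilter ℕ : Filter ℕ))).2 h1
    obtain ⟨j, hj⟩ := h2.exists
    obtain ⟨l, hl⟩ := hW j (fun i => Submodule.span (K j) (v j '' {l | c l = i})) (fun i => by
      have h3 := hj i
      have h4 : 0 < (r + d).choose d := Nat.choose_pos (Nat.le_add_left _ _)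
      omega)
    exact hl (c l) (Submodule.subset_span ⟨l, rfl, rfl⟩)
  · have h1 := li_star (K := K) (F := F) (fun j => (Fin.cons 1 (y j) : Fin (M + 1) → F j)) hli
    have e : (Fin.cons 1 (fun i => mk F (fun j => y j i)) : Fin (M + 1) → UR F) =
        fun i => mk F (fun j => (Fin.cons 1 (y j) : Fin (M + 1) → F j) i) := by
      funext i
      refine Fin.cases ?_ (fun k => ?_) i
      · simp only [Fin.cons_zero]
        exact (map_one (mk F)).symm
      · simp
    rw [e]
    exact h1
  · intro l k
    have h1 : ∀ᶠ j in (hyperfilter ℕ : Filter ℕ), ∃ i, v j l k = g j i :=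
      Eventually.of_forall fun j => hv j l k
    obtain ⟨i, hi⟩ := Ultrafilter.eventually_exists_iff.1 h1
    exact ⟨i, (mk_eq_iff _ _).2 hi⟩
  · intro l m
    simp only [hcoef]
    have h1 : ∀ᶠ j in (hyperfilter ℕ : Filter ℕ), (P j l).coeff m = 0 ∨
        ∃ i, (P j l).coeff m = g j i := Eventually.of_forall fun j => hP j l m
    rcases Ultrafilter.eventually_or.1 h1 with h2 | h2
    · left
      exact (mk_zero_iff K _).2 h2
    · right
      obtain ⟨i, hi⟩ := Ultrafilter.eventually_exists_iff.1 h2
      exact ⟨i, (mk_eq_iff _ _).2 hi⟩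
  · intro l h0
    have h1 : ∀ᶠ j in (hyperfilter ℕ : Filter ℕ), ∀ m ∈ (Qt l).support, (P j l).coeff m = 0 := by
      refine (Filter.eventually_all_finset _).2 fun m _ => ?_
      rw [← mk_zero_iff, ← hcoef, h0, MvPolynomial.coeff_zero]
    obtain ⟨j, hj⟩ := h1.exists
    apply hP0 j l
    ext m
    rw [MvPolynomial.coeff_zero]
    by_cases hm : m ∈ (Qt l).support
    · exact hj m hm
    · rw [MvPolynomial.notMem_support_iff] at hm
      rw [← hQj l j, MvPolynomial.coeff_map, hm, map_zero]
  · intro l
    exact (Finset.sup_mono (MvPolynomial.support_map_subset _ _)).trans (hQt l)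
  · intro l
    have e : (Fin.snoc (fun i => mk F (fun j => t j i))
        (∑ i, algebraMap (UR K) (UR F) (mk K (fun j => v j l i)) * mk F (fun j => y j i)) :
          Fin (r + 1) → UR F) =
        fun i => mk F ((Fin.snoc (fun i j => t j i)
          (fun j => ∑ i, algebraMap (K j) (F j) (v j l i) * y j i) :
            Fin (r + 1) → ∀ j, F j) i) := by
      funext i
      refine Fin.lastCases ?_ (fun k => ?_) i
      · rw [Fin.snoc_last, Fin.snoc_last]
        have h1 : (fun j => ∑ i, algebraMap (K j) (F j) (v j l i) * y j i) =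
            ∑ i, pm K F (fun j => v j l i) * (fun j => y j i) := by
          funext j
          rw [Finset.sum_apply]
          rfl
        rw [h1, map_sum]
        refine Finset.sum_congr rfl fun i _ => ?_
        rw [map_mul, algebraMap_UR, um_mk]
      · rw [Fin.snoc_castSucc, Fin.snoc_castSucc]
    rw [e, val_star, mk_zero_iff]
    refine Eventually.of_forall fun j => ?_
    rw [val_j, hQj]
    have e2 : (fun i => (Fin.snoc (fun i j => t j i)
        (fun j => ∑ i, algebraMap (K j) (F j) (v j l i) * y j i) :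
          Fin (r + 1) → ∀ j, F j) i j) =
        (Fin.snoc (t j) (∑ i, algebraMap (K j) (F j) (v j l i) * y j i) : Fin (r + 1) → F j) := by
      funext i
      refine Fin.lastCases ?_ (fun k => ?_) i
      · simp
      · simp
    rw [e2]
    exact hrel j l
  · intro Q hQ0 hQc h0
    choose f hf using hQc
    let Q' : MvPolynomial (Fin r) (∀ j, K j) := ∑ m ∈ Q.support,
      MvPolynomial.monomial m (fun j => MvPolynomial.aeval (g j) (f m))
    have hQ'c : ∀ m, Q'.coeff m = if m ∈ Q.support then
        (fun j => MvPolynomial.aeval (g j) (f m)) else 0 := by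
      intro m
      simp only [Q', MvPolynomial.coeff_sum, MvPolynomial.coeff_monomial]
      rw [Finset.sum_ite_eq']
    have hmap : MvPolynomial.map (mk K) Q' = Q := by
      ext m
      rw [MvPolynomial.coeff_map, hQ'c]
      split_ifs with hm
      · exact (mk_aeval g (f m)).trans (hf m)
      · rw [map_zero]
        exact (MvPolynomial.notMem_support_iff.1 hm).symm
    rw [← hmap, val_star, mk_zero_iff] at h0
    obtain ⟨m0, hm0⟩ := MvPolynomial.ne_zero_iff.1 hQ0
    have h1 : ∀ᶠ j in (hyperfilter ℕ : Filter ℕ), MvPolynomial.aeval (g j) (f m0) ≠ 0 := by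
      refine Ultrafilter.eventually_not.2 fun h2 => hm0 ?_
      rw [← mk_zero_iff] at h2
      rw [← hf m0]
      exact (mk_aeval g (f m0)).symm.trans h2
    obtain ⟨D0, hD0⟩ : ∃ D0 : ℕ, (∀ m ∈ Q.support, m.degree ≤ D0) ∧
        (∀ m ∈ Q.support, (f m).totalDegree ≤ D0) ∧
        ∀ m ∈ Q.support, ∀ e, |(f m).coeff e| ≤ (D0 : ℤ) := by
      have hb : ∀ m, ∃ B : ℕ, ∀ e, |(f m).coeff e| ≤ (B : ℤ) := by
        intro m
        refine ⟨∑ e ∈ (f m).support, ((f m).coeff e).natAbs, fun e => ?_⟩
        by_cases he : e ∈ (f m).support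
        · have h2 : ((f m).coeff e).natAbs ≤ ∑ e ∈ (f m).support, ((f m).coeff e).natAbs :=
            Finset.single_le_sum (f := fun e => ((f m).coeff e).natAbs)
              (fun _ _ => Nat.zero_le _) he
          rw [Int.abs_eq_natAbs]
          exact_mod_cast h2
        · rw [MvPolynomial.notMem_support_iff.1 he, abs_zero]
          exact Int.natCast_nonneg _
      choose B hB using hb
      refine ⟨∑ m ∈ Q.support, (m.degree + (f m).totalDegree + B m), ?_, ?_, ?_⟩
      · intro m hm
        have h2 := Finset.single_le_sum (f := fun m => m.degree + (f m).totalDegree + B m)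
          (fun _ _ => Nat.zero_le _) hm
        omega
      · intro m hm
        have h2 := Finset.single_le_sum (f := fun m => m.degree + (f m).totalDegree + B m)
          (fun _ _ => Nat.zero_le _) hm
        omega
      · intro m hm e
        have h2 := Finset.single_le_sum (f := fun m => m.degree + (f m).totalDegree + B m)
          (fun _ _ => Nat.zero_le _) hm
        refine (hB m e).trans ?_
        have h3 : B m ≤ ∑ m ∈ Q.support, (m.degree + (f m).totalDegree + B m) := by omega
        exact_mod_cast h3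
    obtain ⟨j, hj1, hj2, hj3⟩ := (h0.and (h1.and (hev D0))).exists
    rw [val_j] at hj1
    refine hQ j _ ?_ ?_ ?_ hj1
    · rw [MvPolynomial.ne_zero_iff]
      refine ⟨m0, ?_⟩
      rw [MvPolynomial.coeff_map, hQ'c, if_pos (MvPolynomial.mem_support_iff.2 hm0)]
      exact hj2
    · rw [MvPolynomial.totalDegree]
      refine Finset.sup_le fun m hm => ?_
      have hm' : m ∈ Q.support := by
        by_contra hm2
        rw [MvPolynomial.mem_support_iff, MvPolynomial.coeff_map, hQ'c, if_neg hm2] at hm
        exact hm (map_zero _)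
      exact (hD0.1 m hm').trans hj3
    · intro m
      rw [MvPolynomial.coeff_map, hQ'c]
      by_cases hm : m ∈ Q.support
      · rw [if_pos hm]
        refine ⟨f m, (hD0.2.1 m hm).trans hj3, fun e => (hD0.2.2 m hm e).trans ?_, rfl⟩
        exact_mod_cast hj3
      · rw [if_neg hm]
        exact ⟨0, by simp, by simp, by simp⟩

end Pool.Agent.H91.ET
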