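import Pool.Agent.H72.ET.Targets

/-!
Module EXU of the board et_modules (MP_3cf473_nt), helper91: the limit case.
-/

open Finset Filter

namespace Pool.Agent.H91.ET

open Pool.Agent.H72.BF (RelN)

namespace EXU

/-- clearing the denominators of a polynomial -/
lemma den_one {L : ℕ} (f : MvPolynomial (Fin L) ℚ) : ∃ b : ℤ, b ≠ 0 ∧
    ∃ G : MvPolynomial (Fin L) ℤ, MvPolynomial.map (Int.castRingHom ℚ) G =
      MvPolynomial.C (b : ℚ) * f := by
  induction f using MvPolynomial.induction_on with
  | C a =>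
    refine ⟨a.den, by exact_mod_cast a.den_ne_zero, MvPolynomial.C a.num, ?_⟩
    rw [MvPolynomial.map_C, ← MvPolynomial.C_mul]
    congr 1
    have h1 := Rat.den_mul_eq_num a
    simp only [eq_intCast, Int.cast_natCast]
    exact h1.symm
  | add p q hp hq =>
    obtain ⟨b, hb, G, hG⟩ := hp
    obtain ⟨b', hb', G', hG'⟩ := hq
    refine ⟨b * b', mul_ne_zero hb hb',
      MvPolynomial.C b' * G + MvPolynomial.C b * G', ?_⟩
    rw [map_add, map_mul, map_mul, hG, hG', MvPolynomial.map_C, MvPolynomial.map_C]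
    simp only [eq_intCast, Int.cast_mul, MvPolynomial.C_mul]
    ring
  | mul_X p i hp =>
    obtain ⟨b, hb, G, hG⟩ := hp
    refine ⟨b, hb, G * MvPolynomial.X i, ?_⟩
    rw [map_mul, hG, MvPolynomial.map_X]
    ring

/-- clearing the denominators of finitely many polynomials -/
lemma den_fin {L : ℕ} {ι : Type} (S : Finset ι) (f : ι → MvPolynomial (Fin L) ℚ) :
    ∃ b : ℤ, b ≠ 0 ∧ ∀ m ∈ S, ∃ G : MvPolynomial (Fin L) ℤ,
      MvPolynomial.map (Int.castRingHom ℚ) G = MvPolynomial.C (b : ℚ) * f m := by
  classical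
  induction S using Finset.induction_on with
  | empty => exact ⟨1, one_ne_zero, by simp⟩
  | insert a S _ ih =>
    obtain ⟨b, hb, h⟩ := ih
    obtain ⟨b', hb', G', hG'⟩ := den_one (f a)
    refine ⟨b * b', mul_ne_zero hb hb', fun m hm => ?_⟩
    rcases Finset.mem_insert.1 hm with rfl | hm
    · refine ⟨MvPolynomial.C b * G', ?_⟩
      rw [map_mul, hG', MvPolynomial.map_C]
      simp only [eq_intCast, Int.cast_mul, MvPolynomial.C_mul]
      ring
    · obtain ⟨G, hG⟩ := h m hm
      refine ⟨MvPolynomial.C b' * G, ?_⟩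
      rw [map_mul, hG, MvPolynomial.map_C]
      simp only [eq_intCast, Int.cast_mul, MvPolynomial.C_mul]
      ring

lemma aeval_map_int {K : Type} [Field K] [CharZero K] {L : ℕ} (g : Fin L → K)
    (G : MvPolynomial (Fin L) ℤ) :
    MvPolynomial.aeval g (MvPolynomial.map (Int.castRingHom ℚ) G) = MvPolynomial.aeval g G := by
  rw [MvPolynomial.aeval_def, MvPolynomial.aeval_def, MvPolynomial.eval₂_map]
  congr 1
  exact RingHom.ext_int _ _

/-- algebraic independence over the field generated by `g` -/
lemma ai_adjoin {K F : Type} [Field K] [CharZero K] [Field F] [Algebra K F] {r L : ℕ}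
    (t : Fin r → F) (g : Fin L → K)
    (hQ : ∀ Q : MvPolynomial (Fin r) K, Q ≠ 0 →
      (∀ m, ∃ f : MvPolynomial (Fin L) ℤ, MvPolynomial.aeval g f = Q.coeff m) →
      MvPolynomial.aeval t Q ≠ 0) :
    AlgebraicIndependent (Algebra.adjoin ℚ (Set.range g)) t := by
  classical
  rw [algebraicIndependent_iff]
  intro p hp
  by_contra hne
  have h1 : ∀ m, ∃ f : MvPolynomial (Fin L) ℚ, MvPolynomial.aeval g f =
      ((p.coeff m : Algebra.adjoin ℚ (Set.range g)) : K) := by
    intro m
    exact (Algebra.adjoin_range_eq_range_aeval ℚ g).le (p.coeff m).2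
  choose f hf using h1
  obtain ⟨b, hb, hG⟩ := den_fin p.support f
  have hG' : ∀ m, ∃ G : MvPolynomial (Fin L) ℤ, MvPolynomial.aeval g G =
      (b : K) * ((p.coeff m : Algebra.adjoin ℚ (Set.range g)) : K) := by
    intro m
    by_cases hm : m ∈ p.support
    · obtain ⟨G, h2⟩ := hG m hm
      refine ⟨G, ?_⟩
      rw [← aeval_map_int, h2, map_mul, hf, MvPolynomial.aeval_C]
      simp
    · refine ⟨0, ?_⟩
      rw [MvPolynomial.notMem_support_iff.1 hm]
      simp
  have hbK : (b : K) ≠ 0 := by exact_mod_cast hb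
  have hinj : Function.Injective (algebraMap (Algebra.adjoin ℚ (Set.range g)) K) :=
    Subtype.val_injective
  refine hQ (MvPolynomial.C (b : K) *
    MvPolynomial.map (algebraMap (Algebra.adjoin ℚ (Set.range g)) K) p) ?_ ?_ ?_
  · refine mul_ne_zero ?_ ?_
    · intro h2
      exact hbK (MvPolynomial.C_injective _ _ (h2.trans (map_zero _).symm))
    · intro h2
      apply hne
      apply MvPolynomial.map_injective _ hinj
      rw [h2, map_zero]
  · intro m
    obtain ⟨G, hG⟩ := hG' m
    refine ⟨G, ?_⟩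
    rw [hG, MvPolynomial.coeff_C_mul, MvPolynomial.coeff_map]
    rfl
  · rw [map_mul, MvPolynomial.aeval_map_algebraMap, hp, mul_zero]

/-- the limit case -/
theorem lim_case {K F : Type} [Field K] [CharZero K] [IsAlgClosed K] [Field F] [Algebra K F]
    {r d M s N L : ℕ}
    (hs : ∀ (K F : Type) [Field K] [CharZero K] [IsAlgClosed K]
      [Field F] [Algebra K F] (t : Fin r → F) (y : Fin M → F), AlgebraicIndependent K t →
      LinearIndependent K (Fin.cons 1 y : Fin (M + 1) → F) →
      ∃ W : Fin s → Submodule K (Fin M → K),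
        (∀ i, Module.finrank K (W i) + 1 ≤ (r + d).choose d) ∧
        ∀ v : Fin M → K, RelN K t d (∑ j, algebraMap K F (v j) * y j) → ∃ i, v ∈ W i)
    (t : Fin r → F) (y : Fin M → F) (g : Fin L → K) (v : Fin N → Fin M → K)
    (P : Fin N → MvPolynomial (Fin (r + 1)) K)
    (hli : LinearIndependent K (Fin.cons 1 y : Fin (M + 1) → F))
    (hv : ∀ l j, ∃ i, v l j = g i)
    (hP : ∀ l m, (P l).coeff m = 0 ∨ ∃ i, (P l).coeff m = g i)
    (hP0 : ∀ l, P l ≠ 0) (hPd : ∀ l, (P l).totalDegree ≤ d)
    (hrel : ∀ l, MvPolynomial.aeval (Fin.snoc t (∑ j, algebraMap K F (v l j) * y j) :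
      Fin (r + 1) → F) (P l) = 0)
    (hQ : ∀ Q : MvPolynomial (Fin r) K, Q ≠ 0 →
      (∀ m, ∃ f : MvPolynomial (Fin L) ℤ, MvPolynomial.aeval g f = Q.coeff m) →
      MvPolynomial.aeval t Q ≠ 0) :
    ∃ c : Fin N → Fin s, ∀ i, Module.finrank K (Submodule.span K (v '' {l | c l = i})) + 1 ≤
      (r + d).choose d := by
  classical
  obtain ⟨k0, hk0⟩ : ∃ k0 : IntermediateField ℚ K, k0 = IntermediateField.adjoin ℚ (Set.range g) :=
    ⟨_, rfl⟩
  have hAI0 : AlgebraicIndependent k0 t := by
    rw [hk0, IntermediateField.algebraicIndependent_adjoin_iff]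
    exact ai_adjoin t g hQ
  have hgk : ∀ i, g i ∈ k0 := fun i => by
    rw [hk0]
    exact IntermediateField.subset_adjoin _ _ ⟨i, rfl⟩
  have hAI : AlgebraicIndependent (algebraicClosure k0 K) t := hAI0.extendScalars _
  have hcl : IsAlgClosed (algebraicClosure k0 K) :=
    (algebraicClosure.isAlgClosure (F := k0) (E := K)).isAlgClosed
  have hchar : CharZero (algebraicClosure k0 K) := inferInstance
  have hli1 : LinearIndependent (algebraicClosure k0 K) (Fin.cons 1 y : Fin (M + 1) → F) :=
    hli.restrict_scalars' (R := algebraicClosure k0 K)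
  obtain ⟨W, hW1, hW2⟩ := hs (algebraicClosure k0 K) F t y hAI hli1
  have hg1 : ∀ i, ∃ a : algebraicClosure k0 K, algebraMap (algebraicClosure k0 K) K a = g i :=
    fun i => ⟨algebraMap k0 (algebraicClosure k0 K) ⟨g i, hgk i⟩, rfl⟩
  choose g1 hg1 using hg1
  have hinj : Function.Injective (algebraMap (algebraicClosure k0 K) K) := Subtype.val_injective
  choose iv hiv using hv
  have hFK : ∀ a : algebraicClosure k0 K, algebraMap (algebraicClosure k0 K) F a =
      algebraMap K F (algebraMap (algebraicClosure k0 K) K a) := fun a => rfl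
  have hmem : ∀ l, ∃ i, (fun j => g1 (iv l j)) ∈ W i := by
    intro l
    apply hW2
    have h1 : P l ∈ Set.range (MvPolynomial.map (σ := Fin (r + 1))
        (algebraMap (algebraicClosure k0 K) K)) := by
      rw [MvPolynomial.mem_range_map_iff_coeffs_subset]
      intro x hx
      obtain ⟨m, -, rfl⟩ := MvPolynomial.mem_coeffs_iff.1 hx
      rcases hP l m with h2 | ⟨i, h2⟩
      · rw [h2]
        exact ⟨0, map_zero _⟩
      · rw [h2]
        exact ⟨g1 i, hg1 i⟩
    obtain ⟨P1, hP1⟩ := h1
    have hP1' : MvPolynomial.map (algebraMap (algebraicClosure k0 K) K) P1 = P l := hP1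
    refine ⟨P1, ?_, ?_, ?_⟩
    · rintro rfl
      rw [map_zero] at hP1'
      exact hP0 l hP1'.symm
    · have h2 := hPd l
      rw [← hP1'] at h2
      refine le_trans (le_of_eq ?_) h2
      rw [MvPolynomial.totalDegree, MvPolynomial.totalDegree,
        MvPolynomial.support_map_of_injective _ hinj]
    · have h2 := hrel l
      rw [← hP1', MvPolynomial.aeval_map_algebraMap] at h2
      have h3 : (∑ j, algebraMap (algebraicClosure k0 K) F (g1 (iv l j)) * y j) =
          ∑ j, algebraMap K F (v l j) * y j := by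
        refine Finset.sum_congr rfl fun j _ => ?_
        rw [hFK, hg1, hiv]
      rw [h3]
      exact h2
  choose c hc using hmem
  refine ⟨c, fun i => ?_⟩
  refine le_trans (Nat.add_le_add_right ?_ 1) (hW1 i)
  have hfin : Module.Finite (algebraicClosure k0 K) (W i) := inferInstance
  let b := Module.finBasis (algebraicClosure k0 K) (W i)
  have h1 : Submodule.span K (v '' {l | c l = i}) ≤ Submodule.span K (Set.range
      (fun (k : Fin (Module.finrank (algebraicClosure k0 K) (W i))) (j : Fin M) =>
        algebraMap (algebraicClosure k0 K) K ((b k : Fin M → algebraicClosure k0 K) j))) := by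
    rw [Submodule.span_le]
    rintro _ ⟨l, hl, rfl⟩
    have h2 : (fun j => g1 (iv l j)) ∈ W i := by
      have h3 := hc l
      rw [show c l = i from hl] at h3
      exact h3
    have h3 := b.sum_repr ⟨_, h2⟩
    have h4 : v l = ∑ k, algebraMap (algebraicClosure k0 K) K (b.repr ⟨_, h2⟩ k) •
        (fun (j : Fin M) => algebraMap (algebraicClosure k0 K) K
          ((b k : Fin M → algebraicClosure k0 K) j)) := by
      funext j
      have h5 : ∑ k, b.repr ⟨_, h2⟩ k * (b k : Fin M → algebraicClosure k0 K) j =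
          g1 (iv l j) := by
        have h6 := congrArg (fun w : W i => (w : Fin M → algebraicClosure k0 K) j) h3
        simp only [Submodule.coe_sum, Submodule.coe_smul, Finset.sum_apply, Pi.smul_apply,
          smul_eq_mul] at h6
        exact h6
      rw [hiv l j, ← hg1, ← h5, map_sum, Finset.sum_apply]
      refine Finset.sum_congr rfl fun k _ => ?_
      rw [map_mul]
      rfl
    rw [SetLike.mem_coe, h4]
    exact Submodule.sum_mem _ fun k _ => Submodule.smul_mem _ _
      (Submodule.subset_span ⟨k, rfl⟩)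
  refine (Submodule.finrank_mono h1).trans ?_
  refine (finrank_range_le_card _).trans ?_
  simp

end EXU

end Pool.Agent.H91.ET
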